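import Pool.Agent.H11.LD.Targets

/-!
# Board ldm_modules, row EXA: examples of every order
-/

set_option autoImplicit false

open Finset Classical

namespace Pool.Agent.H20.LD

open Pool.Agent.H11.LD Pool.Agent.H9.Lap

/-- adjacency of positions -/
def AA (u v : ℕ × ℕ) : Prop :=
  (u.1 = v.1 ∧ ((u.2 = 0 ∧ v.2 ≠ 0) ∨ (v.2 = 0 ∧ u.2 ≠ 0))) ∨
    (u.2 = 1 ∧ v.2 = 2 ∧ v.1 = u.1 + 1) ∨ (v.2 = 1 ∧ u.2 = 2 ∧ u.1 = v.1 + 1)

theorem AA_symm {u v : ℕ × ℕ} (h : AA u v) : AA v u := by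
  unfold AA at *
  omega

theorem AA_irr (u : ℕ × ℕ) : ¬ AA u u := by
  unfold AA
  omega

/-- the graph on all positions -/
def GG (g m : ℕ) : SimpleGraph (Fin g × Fin m) where
  Adj u v := AA ((u.1 : ℕ), (u.2 : ℕ)) ((v.1 : ℕ), (v.2 : ℕ))
  symm := ⟨fun _ _ h => AA_symm h⟩
  loopless := ⟨fun _ h => AA_irr _ h⟩

theorem GG_str (g m : ℕ) : Str (GG g m) g m (Equiv.refl _) False False := by
  refine ⟨?_, ?_, ?_⟩
  · intro u v h1 h2 h3
    exact Or.inl ⟨congrArg Fin.val h1, Or.inl ⟨h2, h3⟩⟩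
  · intro u v h
    have h' : (u.1 : ℕ) ≠ (v.1 : ℕ) := fun h1 => h (Fin.ext h1)
    change AA ((u.1 : ℕ), (u.2 : ℕ)) ((v.1 : ℕ), (v.2 : ℕ)) ↔ _
    simp only [Equiv.refl_apply, Link, AA, false_and, or_false]
    omega
  · intro u v _ h1 h2 h3 _
    have h' : (u.1 : ℕ) = (v.1 : ℕ) := congrArg Fin.val h1
    have h2' : (u.2 : ℕ) ≠ 0 := h2
    have h3' : (v.2 : ℕ) ≠ 0 := h3
    change AA ((u.1 : ℕ), (u.2 : ℕ)) ((v.1 : ℕ), (v.2 : ℕ)) ↔ _
    rw [false_and, iff_false]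
    unfold AA
    simp only
    omega

theorem GG_ub (hROOT : T_ROOT) (hUBA : T_UBA) (hUBB : T_UBB) (g m : ℕ) (μ : ℝ) (hg : 2 ≤ g)
    (hm : 3 ≤ m) (hμ : IsRoot g m μ) (x : ℕ → ℕ → ℝ) :
    qf (GG g m) (fun u => x (u.1 : ℕ) (u.2 : ℕ)) ≤
      μ * ∑ u : Fin g × Fin m, x (u.1 : ℕ) (u.2 : ℕ) ^ 2 := by
  obtain ⟨μ', hμ', h3, hmm, -, hroot, -⟩ := hROOT g m hg hm
  have : μ = μ' := IsGreatest.unique hμ hμ'
  subst this
  obtain ⟨h4, h5⟩ := hUBA (Fin g × Fin m) (GG g m) g m (Equiv.refl _) False False hg hm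
    (fun h => h.elim) (fun h => h.elim) (GG_str g m) (fun u => x (u.1 : ℕ) (u.2 : ℕ)) x
    (fun v => rfl)
  rw [h5]
  exact h4.trans (hUBB g m False False μ x hg hm h3 hmm hroot (fun h => h.elim)
    (fun h => h.elim))

theorem sum_inj_le {V W : Type} (ι : V → W) (hι : Function.Injective ι) (s : Finset V)
    (t : Finset W) (F : W → ℝ) (hF : ∀ w, 0 ≤ F w) (h : ∀ v ∈ s, ι v ∈ t) :
    ∑ v ∈ s, F (ι v) ≤ ∑ w ∈ t, F w := by
  rw [← Finset.sum_image (f := F) (s := s) (g := ι) (fun a _ b _ hab => hι hab)]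
  apply Finset.sum_le_sum_of_subset_of_nonneg
  · intro w hw
    rw [Finset.mem_image] at hw
    obtain ⟨v, hv, rfl⟩ := hw
    exact h v hv
  · intro w _ _
    exact hF w

theorem qf_comap_le {V W : Type} [Fintype V] [Fintype W] (G : SimpleGraph W) (ι : V → W)
    (hι : Function.Injective ι) (f : W → ℝ) :
    qf (G.comap ι) (fun v => f (ι v)) ≤ qf G f := by
  unfold qf
  apply div_le_div_of_nonneg_right _ (by norm_num)
  refine le_trans (Finset.sum_le_sum fun v _ => ?_)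
    (sum_inj_le ι hι Finset.univ Finset.univ
      (fun v' => ∑ w ∈ nb G v', (f v' - f w) ^ 2)
      (fun w => Finset.sum_nonneg fun _ _ => sq_nonneg _) (fun _ _ => Finset.mem_univ _))
  apply sum_inj_le ι hι (nb (G.comap ι) v) (nb G (ι v)) (fun w => (f (ι v) - f w) ^ 2)
    (fun w => sq_nonneg _)
  intro w hw
  unfold nb at hw ⊢
  rw [Finset.mem_filter] at hw ⊢
  exact ⟨Finset.mem_univ _, hw.2⟩

theorem pf_EXA (hROOT : T_ROOT) (hUBA : T_UBA) (hUBB : T_UBB) : T_EXA := by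
  intro g m n μ hg hm hn1 hn2 hn3 hμ
  have hg0 : 0 < g := by omega
  have hdiv : ∀ k : Fin n, (k : ℕ) / g < m := by
    intro k
    rw [Nat.div_lt_iff_lt_mul hg0, Nat.mul_comm]
    exact k.2.trans_le hn2
  have hmod : ∀ k : Fin n, (k : ℕ) % g < g := fun k => Nat.mod_lt _ hg0
  let ι : Fin n → Fin g × Fin m := fun k => (⟨(k : ℕ) % g, hmod k⟩, ⟨(k : ℕ) / g, hdiv k⟩)
  have hι : Function.Injective ι := by
    intro a b hab
    have h1 : (a : ℕ) % g = (b : ℕ) % g := congrArg (fun u => (u.1 : ℕ)) hab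
    have h2 : (a : ℕ) / g = (b : ℕ) / g := congrArg (fun u => (u.2 : ℕ)) hab
    apply Fin.ext
    rw [← Nat.mod_add_div (a : ℕ) g, ← Nat.mod_add_div (b : ℕ) g, h1, h2]
  have m1 : ∀ i j, i < g → (i + g * j) % g = i := by
    intro i j hi
    rw [Nat.add_mul_mod_self_left, Nat.mod_eq_of_lt hi]
  have m2 : ∀ i j, i < g → (i + g * j) / g = j := by
    intro i j hi
    rw [Nat.add_mul_div_left _ _ hg0, Nat.div_eq_of_lt hi, Nat.zero_add]
  have hadj : ∀ a b : Fin n, ((GG g m).comap ι).Adj a b ↔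
      AA ((a : ℕ) % g, (a : ℕ) / g) ((b : ℕ) % g, (b : ℕ) / g) := fun a b => Iff.rfl
  -- the centres
  have hgn : g ≤ n := by omega
  have hcen : ∀ i (hi : i < g), ((⟨i, hi.trans_le hgn⟩ : Fin n) : ℕ) % g = i ∧
      ((⟨i, hi.trans_le hgn⟩ : Fin n) : ℕ) / g = 0 := fun i hi =>
    ⟨Nat.mod_eq_of_lt hi, Nat.div_eq_of_lt hi⟩
  have hstar : ∀ k : Fin n, (k : ℕ) / g ≠ 0 →
      ((GG g m).comap ι).Adj ⟨(k : ℕ) % g, (hmod k).trans_le hgn⟩ k := by
    intro k hk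
    rw [hadj, (hcen _ (hmod k)).1, (hcen _ (hmod k)).2]
    exact Or.inl ⟨rfl, Or.inl ⟨rfl, hk⟩⟩
  have hzero : ∀ k : Fin n, (k : ℕ) / g = 0 →
      k = ⟨(k : ℕ) % g, (hmod k).trans_le hgn⟩ := by
    intro k hk
    apply Fin.ext
    have := Nat.mod_add_div (k : ℕ) g
    rw [hk] at this
    simp only
    omega
  have hcr : ∀ k : Fin n, ((GG g m).comap ι).Reachable
      ⟨(k : ℕ) % g, (hmod k).trans_le hgn⟩ k := by
    intro k
    by_cases hk : (k : ℕ) / g = 0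
    · rw [← hzero k hk]
    · exact (hstar k hk).reachable
  have hnext : ∀ i (hi : i + 1 < g), ((GG g m).comap ι).Reachable
      ⟨i, by omega⟩ ⟨i + 1, by omega⟩ := by
    intro i hi
    have k1 : i + g * 1 < n := by omega
    have k2 : i + 1 + g * 2 < n := by omega
    have r1 := hcr ⟨i + g * 1, k1⟩
    have r2 := hcr ⟨i + 1 + g * 2, k2⟩
    have e1 : (⟨((⟨i + g * 1, k1⟩ : Fin n) : ℕ) % g, (hmod ⟨i + g * 1, k1⟩).trans_le hgn⟩ :
      Fin n) = ⟨i, by omega⟩ := Fin.ext (m1 i 1 (by omega))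
    have e2 : (⟨((⟨i + 1 + g * 2, k2⟩ : Fin n) : ℕ) % g,
      (hmod ⟨i + 1 + g * 2, k2⟩).trans_le hgn⟩ : Fin n) = ⟨i + 1, by omega⟩ :=
      Fin.ext (m1 (i + 1) 2 (by omega))
    rw [e1] at r1
    rw [e2] at r2
    have r3 : ((GG g m).comap ι).Adj ⟨i + g * 1, k1⟩ ⟨i + 1 + g * 2, k2⟩ := by
      rw [hadj]
      simp only
      rw [m1 i 1 (by omega), m2 i 1 (by omega), m1 (i + 1) 2 (by omega),
        m2 (i + 1) 2 (by omega)]
      exact Or.inr (Or.inl ⟨rfl, rfl, rfl⟩)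
    exact (r1.trans r3.reachable).trans r2.symm
  have hall : ∀ i (hi : i < g), ((GG g m).comap ι).Reachable
      ⟨0, by omega⟩ ⟨i, by omega⟩ := by
    intro i
    induction i with
    | zero => intro _; exact SimpleGraph.Reachable.refl _
    | succ i ih => intro hi; exact (ih (by omega)).trans (hnext i hi)
  refine ⟨(GG g m).comap ι, ?_, ?_, ?_⟩
  · have : Nonempty (Fin n) := ⟨⟨0, by omega⟩⟩
    refine SimpleGraph.Connected.mk ?_
    intro a b
    have ha := (hall _ (hmod a)).trans (hcr a)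
    have hb := (hall _ (hmod b)).trans (hcr b)
    exact ha.symm.trans hb
  · refine ⟨⟨Finset.univ.image (fun i : Fin g => (⟨(i : ℕ), i.2.trans_le hgn⟩ : Fin n)),
      ?_, ?_⟩, ?_⟩
    · intro v hv
      have hv0 : (v : ℕ) / g ≠ 0 := by
        intro h0
        apply hv
        rw [Finset.mem_image]
        exact ⟨⟨(v : ℕ) % g, hmod v⟩, Finset.mem_univ _, (hzero v h0).symm⟩
      exact ⟨⟨(v : ℕ) % g, (hmod v).trans_le hgn⟩, Finset.mem_image.mpr
        ⟨⟨(v : ℕ) % g, hmod v⟩, Finset.mem_univ _, rfl⟩, hstar v hv0⟩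
    · rw [Finset.card_image_of_injective, Finset.card_univ, Fintype.card_fin]
      intro a b hab
      exact Fin.ext (congrArg (fun u : Fin n => (u : ℕ)) hab)
    · rintro k ⟨S, hS, rfl⟩
      have hsur : (Finset.univ : Finset (Fin g)) ⊆ S.image (fun k => (ι k).1) := by
        intro i _
        rw [Finset.mem_image]
        by_cases hi : (⟨(i : ℕ), i.2.trans_le hgn⟩ : Fin n) ∈ S
        · exact ⟨_, hi, Fin.ext (hcen (i : ℕ) i.2).1⟩
        · obtain ⟨s, hs, hadj'⟩ := hS _ hi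
          refine ⟨s, hs, Fin.ext ?_⟩
          rw [hadj] at hadj'
          unfold AA at hadj'
          simp only at hadj'
          rw [Nat.mod_eq_of_lt i.2, Nat.div_eq_of_lt i.2] at hadj'
          change (s : ℕ) % g = i
          omega
      have := Finset.card_le_card hsur
      rw [Finset.card_univ, Fintype.card_fin] at this
      exact this.trans Finset.card_image_le
  · intro f
    let x : ℕ → ℕ → ℝ := fun i j => if h : i < g ∧ i + g * j < n then f ⟨i + g * j, h.2⟩ else 0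
    have hx : ∀ k : Fin n, x ((ι k).1 : ℕ) ((ι k).2 : ℕ) = f k := by
      intro k
      have h1 : (k : ℕ) % g < g ∧ (k : ℕ) % g + g * ((k : ℕ) / g) < n := by
        refine ⟨hmod k, ?_⟩
        rw [Nat.mod_add_div]
        exact k.2
      change (if h : (k : ℕ) % g < g ∧ (k : ℕ) % g + g * ((k : ℕ) / g) < n then
        f ⟨(k : ℕ) % g + g * ((k : ℕ) / g), h.2⟩ else 0) = f k
      rw [dif_pos h1]
      congr 1
      exact Fin.ext (Nat.mod_add_div _ _)
    have h1 := qf_comap_le (GG g m) ι hι (fun u => x (u.1 : ℕ) (u.2 : ℕ))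
    have h2 := GG_ub hROOT hUBA hUBB g m μ hg hm hμ x
    have h3 : (fun v : Fin n => x ((ι v).1 : ℕ) ((ι v).2 : ℕ)) = f := funext hx
    have h4 : ∑ u : Fin g × Fin m, x (u.1 : ℕ) (u.2 : ℕ) ^ 2 = ∑ v, f v ^ 2 := by
      have h5 : ∑ v, f v ^ 2 = ∑ v, (fun u : Fin g × Fin m => x (u.1 : ℕ) (u.2 : ℕ) ^ 2) (ι v) := by
        apply Finset.sum_congr rfl
        intro v _
        simp only
        rw [hx]
      rw [h5, ← Finset.sum_image (f := fun u : Fin g × Fin m => x (u.1 : ℕ) (u.2 : ℕ) ^ 2)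
        (s := Finset.univ) (g := ι) (fun a _ b _ hab => hι hab)]
      symm
      apply Finset.sum_subset (Finset.subset_univ _)
      intro u _ hu
      have h6 : x (u.1 : ℕ) (u.2 : ℕ) = 0 := by
        change (if h : (u.1 : ℕ) < g ∧ (u.1 : ℕ) + g * (u.2 : ℕ) < n then
          f ⟨(u.1 : ℕ) + g * (u.2 : ℕ), h.2⟩ else 0) = 0
        rw [dif_neg]
        rintro ⟨-, h7⟩
        apply hu
        rw [Finset.mem_image]
        refine ⟨⟨_, h7⟩, Finset.mem_univ _, ?_⟩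
        exact Prod.ext (Fin.ext (m1 _ _ u.1.2)) (Fin.ext (m2 _ _ u.1.2))
      rw [h6]
      norm_num
    rw [h3] at h1
    rw [h4] at h2
    exact h1.trans h2

end Pool.Agent.H20.LD
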