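import Pool.Agent.H11.LD.Targets

/-!
# Board ldm_modules, row UBK: one link, and the two links of the middle cluster
-/

set_option autoImplicit false

open Finset Classical

namespace Pool.Agent.H20.LD

open Pool.Agent.H11.LD Pool.Agent.H9.Lap

theorem ubk_l1 {μ : ℝ} (hμ : 3 < μ) (D a b : ℝ) :
    (D + a - b) ^ 2 ≤ (μ - 1) * (a ^ 2 + b ^ 2) + (μ - 1) / (μ - 3) * D ^ 2 := by
  have h3 : 0 < μ - 3 := by linarith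
  have e : (μ - 1) * (a ^ 2 + b ^ 2) + (μ - 1) / (μ - 3) * D ^ 2 - (D + a - b) ^ 2 =
      (μ - 1) / 2 * (a + b) ^ 2 + ((μ - 3) * (a - b) - 2 * D) ^ 2 / (2 * (μ - 3)) := by
    field_simp
    ring
  have h : 0 ≤ (μ - 1) / 2 * (a + b) ^ 2 + ((μ - 3) * (a - b) - 2 * D) ^ 2 / (2 * (μ - 3)) := by
    have : 0 ≤ (μ - 1) / 2 := by linarith
    positivity
  linarith

theorem ubk_l2 {μ : ℝ} (hμ : 5 ≤ μ) (D a b : ℝ) :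
    (D + a - b) ^ 2 ≤ (μ - 1) * a ^ 2 + (μ - 3) * b ^ 2 + 2 * ((μ - 1) / (μ - 3)) * D ^ 2 := by
  obtain ⟨k, rfl⟩ : ∃ k, μ = k + 3 := ⟨μ - 3, by ring⟩
  have hk : 2 ≤ k := by linarith
  have hk0 : 0 < k := by linarith
  have hk1 : 0 < k + 1 := by linarith
  have e1 : k + 3 - 1 = k + 2 := by ring
  have e2 : k + 3 - 3 = k := by ring
  rw [e1, e2]
  have e : (k + 2) * a ^ 2 + k * b ^ 2 + 2 * ((k + 2) / k) * D ^ 2 - (D + a - b) ^ 2 =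
      (k + 1) * (a - (D - b) / (k + 1)) ^ 2 +
      (((k + 2) * D + k * b) ^ 2 / k + (k - 2) * (k + 1) * b ^ 2) / (k + 1) := by
    field_simp
    ring
  have h : 0 ≤ (k + 1) * (a - (D - b) / (k + 1)) ^ 2 +
      (((k + 2) * D + k * b) ^ 2 / k + (k - 2) * (k + 1) * b ^ 2) / (k + 1) := by
    have : 0 ≤ k - 2 := by linarith
    positivity
  linarith

theorem pf_UBK : T_UBK := by
  intro μ hμ
  have h1 : 0 < μ - 1 := by linarith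
  have h3 : 0 < μ - 3 := by linarith
  refine ⟨?_, ?_⟩
  · intro y y' a b
    obtain ⟨p, rfl⟩ : ∃ p, y = -((μ - 1) * p) := ⟨-(y / (μ - 1)), by field_simp⟩
    obtain ⟨q, rfl⟩ : ∃ q, y' = -((μ - 1) * q) := ⟨-(y' / (μ - 1)), by field_simp⟩
    have h := ubk_l1 hμ (p - q) (a - p) (b - q)
    have e : μ * (a ^ 2 + b ^ 2) + μ / (μ - 1) * ((-((μ - 1) * p)) ^ 2 + (-((μ - 1) * q)) ^ 2) +
        (-((μ - 1) * p) - -((μ - 1) * q)) ^ 2 / ((μ - 1) * (μ - 3)) -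
        ((-((μ - 1) * p) - a) ^ 2 + (-((μ - 1) * q) - b) ^ 2 + (a - b) ^ 2) =
        (μ - 1) * ((a - p) ^ 2 + (b - q) ^ 2) + (μ - 1) / (μ - 3) * (p - q) ^ 2 -
        (p - q + (a - p) - (b - q)) ^ 2 := by
      field_simp
      ring
    linarith
  · intro hμ5 y₀ y y₁ a₀ a b b₁
    obtain ⟨p, rfl⟩ : ∃ p, y = -((μ - 1) * p) := ⟨-(y / (μ - 1)), by field_simp⟩
    obtain ⟨p₀, rfl⟩ : ∃ p, y₀ = -((μ - 1) * p) := ⟨-(y₀ / (μ - 1)), by field_simp⟩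
    obtain ⟨p₁, rfl⟩ : ∃ p, y₁ = -((μ - 1) * p) := ⟨-(y₁ / (μ - 1)), by field_simp⟩
    have hs := ubk_l1 hμ (p₀ + p₁ - 2 * p) (a₀ - p₀ + (b₁ - p₁)) (a - p + (b - p))
    have ht := ubk_l2 hμ5 (p₀ - p₁) (a₀ - p₀ - (b₁ - p₁)) (a - b)
    have e : μ * (a₀ ^ 2 + a ^ 2 + b ^ 2 + b₁ ^ 2) +
        μ / (μ - 1) * ((-((μ - 1) * p₀)) ^ 2 + 2 * (-((μ - 1) * p)) ^ 2 + (-((μ - 1) * p₁)) ^ 2) +
        ((-((μ - 1) * p₀) - -((μ - 1) * p)) ^ 2 + (-((μ - 1) * p) - -((μ - 1) * p₁)) ^ 2 +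
          (-((μ - 1) * p₀) - -((μ - 1) * p₁)) ^ 2 / 2) / ((μ - 1) * (μ - 3)) -
        ((-((μ - 1) * p₀) - a₀) ^ 2 + (-((μ - 1) * p) - a) ^ 2 + (-((μ - 1) * p) - b) ^ 2 +
          (-((μ - 1) * p₁) - b₁) ^ 2 + (a₀ - a) ^ 2 + (b - b₁) ^ 2 + (a - b) ^ 2) =
        1 / 2 * ((μ - 1) * ((a₀ - p₀ + (b₁ - p₁)) ^ 2 + (a - p + (b - p)) ^ 2) +
          (μ - 1) / (μ - 3) * (p₀ + p₁ - 2 * p) ^ 2 -
          (p₀ + p₁ - 2 * p + (a₀ - p₀ + (b₁ - p₁)) - (a - p + (b - p))) ^ 2) +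
        1 / 2 * ((μ - 1) * (a₀ - p₀ - (b₁ - p₁)) ^ 2 + (μ - 3) * (a - b) ^ 2 +
          2 * ((μ - 1) / (μ - 3)) * (p₀ - p₁) ^ 2 -
          (p₀ - p₁ + (a₀ - p₀ - (b₁ - p₁)) - (a - b)) ^ 2) := by
      field_simp
      ring
    linarith

end Pool.Agent.H20.LD
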