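import Pool.Agent.H80.LD.Targets

/-!
Row SMJ of ldp_modules (helper20): smooth majorants in `L¹`.
-/

set_option autoImplicit false

open MeasureTheory SchwartzMap Filter Topology
open scoped ENNReal ContDiff InnerProductSpace

namespace Pool.Agent.H20.LD

open Pool.Agent.H80.LD
open Pool.Agent.H43.DPC (V S SD moment trans rot IsMAO Diag)

open Convolution in
theorem pf_SMJ : T_SMJ := by
  intro d f ε η hf hε hη
  set K : Set (V d) := tsupport f with hK
  have hKc : IsCompact K := hf
  have hfc : Continuous (f : V d → ℝ) := f.continuous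
  rcases K.eq_empty_or_nonempty with hKe | hKne
  · have hf0 : (f : V d → ℝ) = 0 := tsupport_eq_empty_iff.1 hKe
    refine ⟨0, fun x => ?_, ?_, ?_, ?_⟩
    · rw [hf0]
      simp
    · exact HasCompactSupport.zero
    · have : tsupport ((0 : S d) : V d → ℝ) = ∅ := by
        rw [tsupport_eq_empty_iff]
        rfl
      rw [this]
      exact Set.empty_subset _
    · rw [hf0]
      simp [hε.le]
  -- the constants
  set M : ℝ := (volume (Metric.cthickening 1 K)).toReal with hM
  have hM0 : 0 ≤ M := ENNReal.toReal_nonneg
  set ε' : ℝ := ε / (M + 1) with hε'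
  have hε'0 : 0 < ε' := div_pos hε (by linarith)
  have huc : UniformContinuous (f : V d → ℝ) := hf.uniformContinuous_of_continuous hfc
  obtain ⟨δ, hδ, hfδ⟩ := Metric.uniformContinuous_iff.1 huc ε' hε'0
  set r : ℝ := min (min (η / 3) (1 / 3)) δ with hr
  have hr0 : 0 < r := lt_min (lt_min (by linarith) (by norm_num)) hδ
  have hrη : r ≤ η / 3 := (min_le_left _ _).trans (min_le_left _ _)
  have hr1 : r ≤ 1 / 3 := (min_le_left _ _).trans (min_le_right _ _)
  have hrδ : r ≤ δ := min_le_right _ _
  let ρ : ContDiffBump (0 : V d) := ⟨r / 2, r, by linarith, by linarith⟩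
  let ψ : V d → ℝ := fun x => max 0 (min 1 (2 - Metric.infDist x K / r))
  have hψc : Continuous ψ := by
    refine continuous_const.max (continuous_const.min ?_)
    exact continuous_const.sub ((Metric.continuous_infDist_pt K).div_const r)
  have hψ0 : ∀ x, 0 ≤ ψ x := fun x => le_max_left _ _
  have hψ1 : ∀ x, ψ x ≤ 1 := fun x => max_le zero_le_one (min_le_left _ _)
  have hψeq : ∀ x, Metric.infDist x K ≤ r → ψ x = 1 := by
    intro x hx
    have h1 : Metric.infDist x K / r ≤ 1 := (div_le_one hr0).2 hx
    change max 0 (min 1 (2 - Metric.infDist x K / r)) = 1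
    rw [min_eq_left (by linarith), max_eq_right zero_le_one]
  have hψsupp : ∀ x, ψ x ≠ 0 → Metric.infDist x K ≤ 2 * r := by
    intro x hx
    by_contra hlt
    rw [not_le] at hlt
    apply hx
    have h1 : 2 ≤ Metric.infDist x K / r := (le_div_iff₀ hr0).2 hlt.le
    change max 0 (min 1 (2 - Metric.infDist x K / r)) = 0
    exact max_eq_left ((min_le_right _ _).trans (by linarith))
  let F : V d → ℝ := fun x => |f x| + ε' * ψ x
  have hFc : Continuous F := hfc.abs.add (continuous_const.mul hψc)
  have hF0 : ∀ x, 0 ≤ F x := fun x => add_nonneg (abs_nonneg _) (mul_nonneg hε'0.le (hψ0 x))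
  have hFsupp : ∀ x, F x ≠ 0 → Metric.infDist x K ≤ 2 * r := by
    intro x hx
    by_contra hlt
    apply hx
    have h1 : ψ x = 0 := by
      by_contra h
      exact hlt (hψsupp x h)
    have h2 : f x = 0 := by
      by_contra h
      apply hlt
      have : x ∈ K := subset_tsupport _ h
      rw [Metric.infDist_zero_of_mem this]
      linarith
    change |f x| + ε' * ψ x = 0
    rw [h1, h2, abs_zero, mul_zero, add_zero]
  have hthick : ∀ (s : ℝ) (x : V d), Metric.infDist x K ≤ s → x ∈ Metric.cthickening s K := by
    intro s x hx
    rw [Metric.cthickening_eq_preimage_infEDist, Set.mem_preimage, Set.mem_Iic]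
    have hfin : Metric.infEDist x K ≠ ⊤ := Metric.infEDist_ne_top hKne
    rw [← ENNReal.ofReal_toReal hfin]
    exact ENNReal.ofReal_le_ofReal hx
  have hFcs : HasCompactSupport F := by
    refine HasCompactSupport.intro (hKc.cthickening (r := 2 * r)) fun x hx => ?_
    by_contra h
    exact hx (hthick _ x (hFsupp x h))
  have hψcs : HasCompactSupport ψ := by
    refine HasCompactSupport.intro (hKc.cthickening (r := 2 * r)) fun x hx => ?_
    by_contra h
    exact hx (hthick _ x (hψsupp x h))
  have hFint : Integrable F volume := hFc.integrable_of_hasCompactSupport hFcs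
  let g : V d → ℝ := (ρ.normed volume) ⋆[ContinuousLinearMap.lsmul ℝ ℝ, volume] F
  have hgdef : ∀ x, g x = ∫ t, ρ.normed volume t * F (x - t) := fun x => rfl
  have hρ0 : ∀ t, 0 ≤ ρ.normed volume t := fun t => ρ.nonneg_normed t
  have hρs : ∀ t, ρ.normed volume t ≠ 0 → ‖t‖ < r := by
    intro t ht
    have h1 : t ∈ Function.support (ρ.normed volume) := ht
    rw [ρ.support_normed_eq, mem_ball_zero_iff] at h1
    exact h1
  have hρint : Integrable (ρ.normed volume) volume := ρ.integrable_normed
  have hprodint : ∀ x, Integrable (fun t => ρ.normed volume t * F (x - t)) volume := by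
    intro x
    refine Continuous.integrable_of_hasCompactSupport
      (ρ.continuous_normed.mul (hFc.comp (continuous_const.sub continuous_id))) ?_
    exact ρ.hasCompactSupport_normed.mul_right
  have hinf : ∀ x t : V d, ‖t‖ < r → Metric.infDist (x - t) K ≤ Metric.infDist x K + r := by
    intro x t ht
    have h1 := Metric.infDist_le_infDist_add_dist (s := K) (x := x - t) (y := x)
    have h2 : dist (x - t) x = ‖t‖ := by
      rw [dist_eq_norm, sub_sub_cancel_left, norm_neg]
    rw [h2] at h1
    linarith
  have hinf' : ∀ x t : V d, ‖t‖ < r → Metric.infDist x K ≤ Metric.infDist (x - t) K + r := by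
    intro x t ht
    have h1 := Metric.infDist_le_infDist_add_dist (s := K) (x := x) (y := x - t)
    have h2 : dist x (x - t) = ‖t‖ := by
      rw [dist_eq_norm, sub_sub_cancel]
    rw [h2] at h1
    linarith
  have hge : ∀ x, |f x| ≤ g x := by
    intro x
    have h1 : |f x| = ∫ t, ρ.normed volume t * |f x| := by
      rw [integral_mul_const, ρ.integral_normed, one_mul]
    rw [h1, hgdef]
    refine integral_mono (hρint.mul_const _) (hprodint x) fun t => ?_
    change ρ.normed volume t * |f x| ≤ ρ.normed volume t * F (x - t)
    by_cases ht : ρ.normed volume t = 0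
    · rw [ht, zero_mul, zero_mul]
    · refine mul_le_mul_of_nonneg_left ?_ (hρ0 t)
      have htr := hρs t ht
      by_cases hx : x ∈ K
      · have h2 : Metric.infDist (x - t) K ≤ r := by
          have := hinf x t htr
          rwa [Metric.infDist_zero_of_mem hx, zero_add] at this
        have h3 : dist x (x - t) < δ := by
          rw [dist_eq_norm, sub_sub_cancel]
          exact htr.trans_le hrδ
        have h4 := hfδ h3
        rw [Real.dist_eq] at h4
        have h5 : |f x| ≤ |f x - f (x - t)| + |f (x - t)| := by
          have := abs_add_le (f x - f (x - t)) (f (x - t))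
          rwa [sub_add_cancel] at this
        change |f x| ≤ |f (x - t)| + ε' * ψ (x - t)
        rw [hψeq _ h2, mul_one]
        linarith
      · have h2 : f x = 0 := image_eq_zero_of_notMem_tsupport hx
        rw [h2, abs_zero]
        exact hF0 _
  have hgsupp : Function.support g ⊆ Metric.cthickening (3 * r) K := by
    intro x hx
    by_contra hcon
    apply hx
    rw [hgdef]
    have h1 : ∀ t, ρ.normed volume t * F (x - t) = 0 := by
      intro t
      by_contra h
      have h2 := left_ne_zero_of_mul h
      have h3 := right_ne_zero_of_mul h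
      have h4 := hFsupp _ h3
      have h5 := hinf' x t (hρs t h2)
      exact hcon (hthick _ x (by linarith))
    rw [integral_congr_ae (Eventually.of_forall h1), integral_zero]
  have hgts : tsupport g ⊆ Metric.cthickening (3 * r) K :=
    closure_minimal hgsupp Metric.isClosed_cthickening
  have hgcs : HasCompactSupport g :=
    (hKc.cthickening (r := 3 * r)).of_isClosed_subset (isClosed_tsupport g) hgts
  have hgsm : ContDiff ℝ ∞ g :=
    ρ.hasCompactSupport_normed.contDiff_convolution_left _ ρ.contDiff_normed
      hFint.locallyIntegrable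
  have hgint : ∫ x, g x = ∫ x, F x := by
    have h1 := integral_convolution (ContinuousLinearMap.lsmul ℝ ℝ) hρint hFint
    rw [ρ.integral_normed] at h1
    simpa using h1
  refine ⟨hgcs.toSchwartzMap hgsm, hge, hgcs, ?_, ?_⟩
  · exact hgts.trans (Metric.cthickening_mono (by linarith) K)
  · change ∫ x, g x ≤ (∫ x, |f x|) + ε
    rw [hgint]
    have hfi : Integrable (fun x => |f x|) volume :=
      hfc.abs.integrable_of_hasCompactSupport hf.norm
    have hψi : Integrable ψ volume := hψc.integrable_of_hasCompactSupport hψcs
    have h1 : ∫ x, F x = (∫ x, |f x|) + ε' * ∫ x, ψ x := by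
      change ∫ x, (|f x| + ε' * ψ x) = _
      rw [integral_add hfi (hψi.const_mul _), integral_const_mul]
    rw [h1]
    have hfinm : volume (Metric.cthickening 1 K) ≠ ⊤ := (hKc.cthickening (r := 1)).measure_ne_top
    have h2 : ∫ x, ψ x ≤ M := by
      have h3 : ∫ x, ψ x ≤ ∫ x, (Metric.cthickening 1 K).indicator (fun _ => (1 : ℝ)) x := by
        refine integral_mono hψi ?_ fun x => ?_
        · exact (integrable_indicator_iff Metric.isClosed_cthickening.measurableSet).2
            (integrableOn_const hfinm)
        · by_cases hx : x ∈ Metric.cthickening 1 K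
          · rw [Set.indicator_of_mem hx]
            exact hψ1 x
          · rw [Set.indicator_of_notMem hx]
            by_contra h
            have h4 : ψ x ≠ 0 := fun h5 => h (le_of_eq h5)
            exact hx (hthick 1 x ((hψsupp x h4).trans (by linarith)))
      rw [integral_indicator Metric.isClosed_cthickening.measurableSet, setIntegral_const,
        smul_eq_mul, mul_one] at h3
      exact h3
    have h4 : ε' * ∫ x, ψ x ≤ ε' * M := mul_le_mul_of_nonneg_left h2 hε'0.le
    have h5 : ε' * M ≤ ε := by
      rw [hε', div_mul_eq_mul_div, div_le_iff₀ (by linarith)]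
      nlinarith
    linarith

end Pool.Agent.H20.LD
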